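import Pool.Agent.K7.H2.UT.Stm

set_option autoImplicit false

open OnePoint

namespace Pool.Agent.K7.H52.UT

open Pool.Agent.K7.H2.UT

variable {F : Type} [Field F]

/-- first coordinate -/
def X : OnePoint F → F
  | ∞ => 1
  | OnePoint.some x => x

/-- second coordinate -/
def Y : OnePoint F → F
  | ∞ => 0
  | OnePoint.some _ => 1

theorem D_eq (a b : OnePoint F) : D a b = X a * Y b - Y a * X b := by
  induction a using OnePoint.rec with
  | infty =>
    induction b using OnePoint.rec with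
    | infty => show (0 : F) = 1 * 0 - 0 * 1; ring
    | coe b => show (1 : F) = 1 * 1 - 0 * b; ring
  | coe a =>
    induction b using OnePoint.rec with
    | infty => show (-1 : F) = a * 0 - 1 * 1; ring
    | coe b => show a - b = a * 1 - 1 * b; ring

theorem gl_coord [DecidableEq F] (M : GL (Fin 2) F) (a : OnePoint F) : ∃ c : F, c ≠ 0 ∧
    X (M • a) = c * (M 0 0 * X a + M 0 1 * Y a) ∧ Y (M • a) = c * (M 1 0 * X a + M 1 1 * Y a) := by
  have hdet : M 0 0 * M 1 1 - M 0 1 * M 1 0 ≠ 0 := by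
    have h := M.det_ne_zero
    rwa [Matrix.det_fin_two] at h
  induction a using OnePoint.rec with
  | infty =>
    rw [OnePoint.smul_infty_eq_ite]
    split_ifs with h
    · have h0 : M 0 0 ≠ 0 := by
        intro h0
        rw [h, h0] at hdet
        simp at hdet
      refine ⟨(M 0 0)⁻¹, inv_ne_zero h0, ?_, ?_⟩
      · show (1 : F) = (M 0 0)⁻¹ * (M 0 0 * 1 + M 0 1 * 0)
        field_simp
        ring
      · show (0 : F) = (M 0 0)⁻¹ * (M 1 0 * 1 + M 1 1 * 0)
        rw [h]
        ring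
    · refine ⟨(M 1 0)⁻¹, inv_ne_zero h, ?_, ?_⟩
      · show M 0 0 / M 1 0 = (M 1 0)⁻¹ * (M 0 0 * 1 + M 0 1 * 0)
        field_simp
        ring
      · show (1 : F) = (M 1 0)⁻¹ * (M 1 0 * 1 + M 1 1 * 0)
        field_simp
        ring
  | coe x =>
    rw [OnePoint.smul_some_eq_ite]
    split_ifs with h
    · have h0 : M 0 0 * x + M 0 1 ≠ 0 := by
        intro h0
        apply hdet
        by_cases h10 : M 1 0 = 0
        · have h11 : M 1 1 = 0 := by
            rw [h10] at h
            simpa using h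
          rw [h10, h11]
          ring
        · have e1 : M 1 1 = - (M 1 0 * x) := by linear_combination h
          have e2 : M 0 1 = - (M 0 0 * x) := by linear_combination h0
          rw [e1, e2]
          ring
      refine ⟨(M 0 0 * x + M 0 1)⁻¹, inv_ne_zero h0, ?_, ?_⟩
      · show (1 : F) = (M 0 0 * x + M 0 1)⁻¹ * (M 0 0 * x + M 0 1 * 1)
        rw [mul_one, inv_mul_cancel₀ h0]
      · show (0 : F) = (M 0 0 * x + M 0 1)⁻¹ * (M 1 0 * x + M 1 1 * 1)
        rw [mul_one, h, mul_zero]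
    · refine ⟨(M 1 0 * x + M 1 1)⁻¹, inv_ne_zero h, ?_, ?_⟩
      · show (M 0 0 * x + M 0 1) / (M 1 0 * x + M 1 1) = (M 1 0 * x + M 1 1)⁻¹ * (M 0 0 * x + M 0 1 * 1)
        rw [mul_one, div_eq_inv_mul]
      · show (1 : F) = (M 1 0 * x + M 1 1)⁻¹ * (M 1 0 * x + M 1 1 * 1)
        rw [mul_one, inv_mul_cancel₀ h]

theorem stINV : StINV := by
  intro F _ _ g hg
  induction hg using Subgroup.closure_induction with
  | mem g hg =>
    rcases hg with ⟨M, hM⟩ | ⟨σ, hσ⟩
    · have hdet : M 0 0 * M 1 1 - M 0 1 * M 1 0 ≠ 0 := by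
        have h := M.det_ne_zero
        rwa [Matrix.det_fin_two] at h
      choose c hc hX hY using gl_coord M
      refine ⟨RingEquiv.refl F, M 0 0 * M 1 1 - M 0 1 * M 1 0, c, hdet, hc, fun a b => ?_⟩
      rw [hM, hM, D_eq, D_eq, hX, hX, hY, hY]
      simp only [RingEquiv.refl_apply]
      ring
    · refine ⟨σ, 1, fun _ => 1, one_ne_zero, fun _ => one_ne_zero, fun a b => ?_⟩
      have hX : ∀ a, X (OnePoint.map σ a) = σ (X a) := by
        intro a
        induction a using OnePoint.rec with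
        | infty => show (1 : F) = σ 1; rw [map_one]
        | coe a => rfl
      have hY : ∀ a, Y (OnePoint.map σ a) = σ (Y a) := by
        intro a
        induction a using OnePoint.rec with
        | infty => show (0 : F) = σ 0; rw [map_zero]
        | coe a => show (1 : F) = σ 1; rw [map_one]
      rw [hσ, hσ, D_eq, D_eq, hX, hX, hY, hY]
      simp only [map_sub, map_mul, one_mul]
  | one =>
    refine ⟨RingEquiv.refl F, 1, fun _ => 1, one_ne_zero, fun _ => one_ne_zero, fun a b => ?_⟩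
    simp
  | mul g h _ _ ig ih =>
    obtain ⟨σ, δ, c, h1, h2, h3⟩ := ig
    obtain ⟨σ', δ', c', h1', h2', h3'⟩ := ih
    refine ⟨σ'.trans σ, δ * σ δ', fun a => c (h a) * σ (c' a), mul_ne_zero h1 ?_, fun a => mul_ne_zero (h2 _) ?_,
      fun a b => ?_⟩
    · exact (map_ne_zero σ).2 h1'
    · exact (map_ne_zero σ).2 (h2' a)
    · rw [Equiv.Perm.mul_apply, Equiv.Perm.mul_apply, h3, h3']
      simp only [map_mul, RingEquiv.trans_apply]
      ring
  | inv g _ ig =>
    obtain ⟨σ, δ, c, h1, h2, h3⟩ := ig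
    refine ⟨σ.symm, σ.symm δ⁻¹, fun a => σ.symm (c (g⁻¹ a))⁻¹, ?_, fun a => ?_, fun a b => ?_⟩
    · exact (map_ne_zero σ.symm).2 (inv_ne_zero h1)
    · exact (map_ne_zero σ.symm).2 (inv_ne_zero (h2 _))
    · have h := h3 (g⁻¹ a) (g⁻¹ b)
      rw [show g (g⁻¹ a) = a from g.apply_symm_apply a, show g (g⁻¹ b) = b from g.apply_symm_apply b] at h
      rw [← map_mul, ← map_mul, ← map_mul, RingEquiv.eq_symm_apply, h]
      have e1 := h2 (g⁻¹ a)
      have e2 := h2 (g⁻¹ b)
      field_simp

end Pool.Agent.K7.H52.UT
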